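import Pool.Agent.Q282.MM.Stm2

/-! # Project MM (helper282), JOB MATCH: the number of the perfect matchings. -/

set_option autoImplicit false

namespace Q176MM

open Finset Q282MM

variable {ι : Type} [DecidableEq ι]

/-- symmetric matrices with even diagonal and row sums the indicator of `A` -/
def P [Fintype ι] (A : Finset ι) (S : Matrix ι ι ℕ) : Prop :=
  (∀ j k, S j k = S k j) ∧ (∀ j, Even (S j j)) ∧ ∀ j, ∑ k, S j k = if j ∈ A then 1 else 0

/-- the matrix of the edge `{a,b}` -/
def E (a b : ι) (j k : ι) : ℕ := if (j = a ∧ k = b) ∨ (j = b ∧ k = a) then 1 else 0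

lemma E_symm (a b j k : ι) : E a b j k = E a b k j := by
  have h : ((j = a ∧ k = b) ∨ (j = b ∧ k = a)) ↔ ((k = a ∧ j = b) ∨ (k = b ∧ j = a)) := by tauto
  unfold E
  exact if_congr h rfl rfl

lemma E_diag {a b : ι} (h : a ≠ b) (j : ι) : E a b j j = 0 := by
  unfold E; rw [if_neg]; rintro (⟨h1, h2⟩ | ⟨h1, h2⟩)
  · exact h (h1.symm.trans h2)
  · exact h (h2.symm.trans h1)

variable [Fintype ι]

lemma E_sum {a b : ι} (h : a ≠ b) (j : ι) : ∑ k, E a b j k = if j = a ∨ j = b then 1 else 0 := by
  by_cases h1 : j = a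
  · subst h1
    rw [if_pos (Or.inl rfl), Finset.sum_eq_single b]
    · simp [E]
    · intro k _ hk; unfold E; rw [if_neg]; rintro (⟨_, h2⟩ | ⟨h2, _⟩)
      · exact hk h2
      · exact h h2
    · intro h2; exact absurd (Finset.mem_univ _) h2
  · by_cases h3 : j = b
    · subst h3
      rw [if_pos (Or.inr rfl), Finset.sum_eq_single a]
      · simp [E]
      · intro k _ hk; unfold E; rw [if_neg]; rintro (⟨h2, _⟩ | ⟨_, h2⟩)
        · exact h1 h2
        · exact hk h2
      · intro h2; exact absurd (Finset.mem_univ _) h2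
    · rw [if_neg (by tauto)]
      apply Finset.sum_eq_zero
      intro k _; unfold E; rw [if_neg]; tauto

lemma row_zero {A : Finset ι} {S : Matrix ι ι ℕ} (h : P A S) {j : ι} (hj : j ∉ A) (k : ι) :
    S j k = 0 := by
  have := h.2.2 j
  rw [if_neg hj] at this
  exact (Finset.sum_eq_zero_iff.mp this) k (Finset.mem_univ _)

lemma add_P {A : Finset ι} {a b : ι} (ha : a ∈ A) (hb : b ∈ A.erase a) {S : Matrix ι ι ℕ}
    (h : P ((A.erase a).erase b) S) : P A (fun j k => S j k + E a b j k) := by
  have hab : a ≠ b := (Finset.ne_of_mem_erase hb).symm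
  refine ⟨fun j k => ?_, fun j => ?_, fun j => ?_⟩
  · show S j k + E a b j k = S k j + E a b k j
    rw [h.1 j k, E_symm]
  · show Even (S j j + E a b j j)
    rw [E_diag hab, add_zero]; exact h.2.1 j
  · show ∑ k, (S j k + E a b j k) = _
    rw [Finset.sum_add_distrib, h.2.2 j, E_sum hab]
    have hbA : b ∈ A := Finset.mem_of_mem_erase hb
    by_cases h1 : j = a
    · subst h1; simp [ha]
    · by_cases h2 : j = b
      · subst h2; simp [hbA]
      · simp [h1, h2]

lemma sub_P {A : Finset ι} {a : ι} (ha : a ∈ A) {S : Matrix ι ι ℕ} (h : P A S) :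
    ∃ b ∈ A.erase a, ∃ S' : Matrix ι ι ℕ, P ((A.erase a).erase b) S' ∧
      S = fun j k => S' j k + E a b j k := by
  have hsum := h.2.2 a
  rw [if_pos ha] at hsum
  obtain ⟨b, hb, hone, hrest⟩ : ∃ b, b ∈ (univ : Finset ι) ∧ S a b = 1 ∧ ∀ k, k ≠ b → S a k = 0 := by
    have hne : ∃ b ∈ (univ : Finset ι), S a b ≠ 0 := by
      by_contra hcon
      push Not at hcon
      rw [Finset.sum_eq_zero hcon] at hsum
      omega
    obtain ⟨b, hb, hb0⟩ := hne
    have h1 : S a b + ∑ k ∈ univ.erase b, S a k = ∑ k, S a k :=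
      Finset.add_sum_erase univ (fun k => S a k) hb
    rw [hsum] at h1
    have h2 : S a b = 1 := by omega
    have h3 : ∑ k ∈ univ.erase b, S a k = 0 := by omega
    refine ⟨b, hb, h2, fun k hk => ?_⟩
    exact (Finset.sum_eq_zero_iff.mp h3) k (Finset.mem_erase.mpr ⟨hk, Finset.mem_univ _⟩)
  have hab : a ≠ b := by
    rintro rfl
    have := h.2.1 a
    rw [hone] at this
    exact absurd this (by decide)
  have hbA : b ∈ A := by
    by_contra hcon
    have := row_zero h hcon a
    rw [h.1 b a, hone] at this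
    omega
  have hsumb := h.2.2 b
  rw [if_pos hbA] at hsumb
  have hrestb : ∀ k, k ≠ a → S b k = 0 := by
    intro k hk
    have h1 : S b a + ∑ k ∈ univ.erase a, S b k = ∑ k, S b k :=
      Finset.add_sum_erase univ (fun k => S b k) (Finset.mem_univ a)
    rw [hsumb, h.1 b a, hone] at h1
    have h3 : ∑ k ∈ univ.erase a, S b k = 0 := by omega
    exact (Finset.sum_eq_zero_iff.mp h3) k (Finset.mem_erase.mpr ⟨hk, Finset.mem_univ _⟩)
  have hle : ∀ j k, E a b j k ≤ S j k := by
    intro j k
    unfold E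
    split_ifs with h1
    · rcases h1 with ⟨rfl, rfl⟩ | ⟨rfl, rfl⟩
      · omega
      · rw [h.1]; omega
    · omega
  refine ⟨b, Finset.mem_erase.mpr ⟨hab.symm, hbA⟩, fun j k => S j k - E a b j k, ⟨?_, ?_, ?_⟩, ?_⟩
  · intro j k
    show S j k - E a b j k = S k j - E a b k j
    rw [h.1 j k, E_symm]
  · intro j
    show Even (S j j - E a b j j)
    rw [E_diag hab, Nat.sub_zero]; exact h.2.1 j
  · intro j
    show ∑ k, (S j k - E a b j k) = _
    have h1 : ∑ k, (S j k - E a b j k) + ∑ k, E a b j k = ∑ k, S j k := by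
      rw [← Finset.sum_add_distrib]
      exact Finset.sum_congr rfl fun k _ => Nat.sub_add_cancel (hle j k)
    rw [h.2.2 j, E_sum hab] at h1
    by_cases h2 : j = a
    · subst h2; simp [ha] at h1 ⊢; exact h1
    · by_cases h3 : j = b
      · subst h3; simp [hbA] at h1 ⊢; exact h1
      · simp [h2, h3] at h1 ⊢; exact h1
  · funext j k
    exact (Nat.sub_add_cancel (hle j k)).symm

/-- adding the edge -/
def addE {A : Finset ι} {a : ι} (ha : a ∈ A)
    (x : (Σ b : {b // b ∈ A.erase a}, {S : Matrix ι ι ℕ // P ((A.erase a).erase b.1) S})) :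
    {S : Matrix ι ι ℕ // P A S} :=
  ⟨fun j k => x.2.1 j k + E a x.1.1 j k, add_P ha x.1.2 x.2.2⟩

lemma addE_bij {A : Finset ι} {a : ι} (ha : a ∈ A) : Function.Bijective (addE ha) := by
  constructor
  · rintro ⟨⟨b, hb⟩, ⟨S, hS⟩⟩ ⟨⟨b', hb'⟩, ⟨S', hS'⟩⟩ heq
    have h0 : ∀ j k, S j k + E a b j k = S' j k + E a b' j k := by
      intro j k
      have := congrArg (fun x : {S : Matrix ι ι ℕ // P A S} => x.1 j k) heq
      exact this
    have hab : a ≠ b := (Finset.ne_of_mem_erase hb).symm
    have h1 : S a b = 0 := row_zero hS (by simp) b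
    have h2 : S' a b = 0 := row_zero hS' (by simp) b
    have h3 := h0 a b
    have hbb : b = b' := by
      by_contra hne
      rw [h1, h2] at h3
      unfold E at h3
      rw [if_pos (Or.inl ⟨rfl, rfl⟩), if_neg] at h3
      · omega
      · rintro (⟨_, h4⟩ | ⟨_, h4⟩)
        · exact hne h4
        · exact hab h4.symm
    subst hbb
    have hSS : S = S' := by
      funext j k
      have := h0 j k
      omega
    subst hSS
    rfl
  · rintro ⟨S, hS⟩
    obtain ⟨b, hb, S', hS', heq⟩ := sub_P ha hS
    exact ⟨⟨⟨b, hb⟩, ⟨S', hS'⟩⟩, Subtype.ext heq.symm⟩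

lemma gm_rec (n : ℕ) : gm (n + 2) = (n + 1) * gm n := by
  unfold gm
  by_cases h : Even n
  · rw [if_pos h, if_pos (by simpa [Nat.even_add] using h)]
    cases n with
    | zero => rfl
    | succ m => 
      show Nat.doubleFactorial (m + 1 + 2 - 1) = _
      have : m + 1 + 2 - 1 = m + 2 := by omega
      rw [this, Nat.doubleFactorial_add_two]
      have : m + 1 - 1 = m := by omega
      rw [this]
  · rw [if_neg h, if_neg (by simpa [Nat.even_add] using h), mul_zero]

lemma main : ∀ (n : ℕ) (A : Finset ι), A.card = n →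
    Finite {S : Matrix ι ι ℕ // P A S} ∧ Nat.card {S : Matrix ι ι ℕ // P A S} = gm n := by
  intro n
  induction n using Nat.strong_induction_on with
  | _ n ih =>
    intro A hA
    rcases Nat.eq_zero_or_pos n with h0 | hpos
    · subst h0
      have hA0 : A = ∅ := Finset.card_eq_zero.mp hA
      subst hA0
      have hS : ∀ S : {S : Matrix ι ι ℕ // P (∅ : Finset ι) S}, S = ⟨fun _ _ => 0, by
          refine ⟨fun _ _ => rfl, fun _ => by simp, fun _ => by simp⟩⟩ := by
        rintro ⟨S, hS⟩
        apply Subtype.ext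
        funext j k
        exact row_zero hS (Finset.notMem_empty _) k
      have hU : Unique {S : Matrix ι ι ℕ // P (∅ : Finset ι) S} := ⟨⟨_⟩, hS⟩
      refine ⟨inferInstance, ?_⟩
      rw [Nat.card_unique]; rfl
    · obtain ⟨a, ha⟩ : A.Nonempty := Finset.card_pos.mp (hA ▸ hpos)
      have hcard : (A.erase a).card = n - 1 := by rw [Finset.card_erase_of_mem ha, hA]
      have key : ∀ b : {b // b ∈ A.erase a},
          Finite {S : Matrix ι ι ℕ // P ((A.erase a).erase b.1) S} ∧
          Nat.card {S : Matrix ι ι ℕ // P ((A.erase a).erase b.1) S} = gm (n - 2) := by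
        rintro ⟨b, hb⟩
        have h2 : ((A.erase a).erase b).card = n - 2 := by
          rw [Finset.card_erase_of_mem hb, hcard]; omega
        exact ih (n - 2) (by omega) _ h2
      haveI : ∀ b : {b // b ∈ A.erase a},
          Finite {S : Matrix ι ι ℕ // P ((A.erase a).erase b.1) S} := fun b => (key b).1
      have e := Equiv.ofBijective _ (addE_bij ha)
      refine ⟨Finite.of_equiv _ e, ?_⟩
      rw [← Nat.card_congr e, Nat.card_sigma]
      rw [Finset.sum_congr rfl (fun b _ => (key b).2)]
      rw [Finset.sum_const, Finset.card_univ, Fintype.card_coe, hcard, smul_eq_mul]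
      rcases Nat.lt_or_ge n 2 with h1 | h1
      · have : n = 1 := by omega
        subst this
        simp [gm]
      · obtain ⟨m, rfl⟩ : ∃ m, n = m + 2 := ⟨n - 2, by omega⟩
        have h3 : m + 2 - 2 = m := by omega
        have h4 : m + 2 - 1 = m + 1 := by omega
        rw [h3, h4, gm_rec]

theorem smatch : Q282MM.S_Match := by
  intro N κ hκ
  have h := (main κ (univ.filter fun j : Fin N => (j : ℕ) < κ) (by
    rw [Fin.card_filter_val_lt]; omega)).2
  rw [← h]
  apply Nat.card_congr
  refine Equiv.subtypeEquivRight fun S => ?_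
  unfold P
  refine and_congr Iff.rfl (and_congr Iff.rfl (forall_congr' fun j => ?_))
  have hm : (j ∈ univ.filter fun j : Fin N => (j : ℕ) < κ) ↔ (j : ℕ) < κ := by simp
  rw [if_congr hm rfl rfl]

end Q176MM
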